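import Mathlib
import Pool.Agent.Q155.Quasi.Defs

/-!
# MP_a30120_gt: a 2-vertex simple closed quasigeodesic that is not an edge-loop

On the regular tetrahedron `ABCD` the closed polygon
`A, (B + C) / 2, D, (3 B + C) / 4, (A + 2 B) / 3, (A + D) / 2, (2 C + D) / 3, (B + 3 C) / 4`.
-/

set_option autoImplicit false
open Set Real EuclideanGeometry Pool.Agent.Q155.Quasi

namespace Pool.Agent.Results.MP_a30120_gt.NotEdgeLoop

/-- the vertices of a regular tetrahedron -/
noncomputable def P : Fin 4 → E3 := ![!₂[1, 1, 1], !₂[1, -1, -1], !₂[-1, 1, -1], !₂[-1, -1, 1]]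

/-- the nodes of the curve -/
noncomputable def X : Fin 8 → E3 := ![!₂[1, 1, 1], !₂[0, 0, -1], !₂[-1, -1, 1],
  !₂[1 / 2, -1 / 2, -1], !₂[1, -1 / 3, -1 / 3], !₂[0, 0, 1], !₂[-1, 1 / 3, -1 / 3],
  !₂[-1 / 2, 1 / 2, -1]]

/-- the faces -/
def F : Fin 8 → Fin 4 := ![3, 0, 0, 3, 2, 1, 0, 3]

theorem seg_coord {p a b : E3} (h : p ∈ segment ℝ a b) :
    ∃ t : ℝ, 0 ≤ t ∧ t ≤ 1 ∧ ∀ k, p k = a k + t * (b k - a k) := by
  rw [segment_eq_image] at h
  obtain ⟨t, ht, rfl⟩ := h
  refine ⟨t, ht.1, ht.2, fun k => ?_⟩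
  simp only [PiLp.add_apply, PiLp.smul_apply, smul_eq_mul]
  ring

theorem inner3 (u v : E3) : inner ℝ u v = u 0 * v 0 + u 1 * v 1 + u 2 * v 2 := by
  rw [PiLp.inner_apply, Fin.sum_univ_three]
  simp only [RCLike.inner_apply, conj_trivial]
  ring

theorem angle_sum {x z y e : E3} {k : ℝ} (hk : 0 < k)
    (h1 : inner ℝ (y - z) (y - z) = k ^ 2 * inner ℝ (x - z) (x - z))
    (h2 : inner ℝ (e - z) (y - z) = -k * inner ℝ (x - z) (e - z)) : ∠ x z e + ∠ e z y = π := by
  have hn : ‖y - z‖ = k * ‖x - z‖ := by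
    rw [real_inner_self_eq_norm_sq, real_inner_self_eq_norm_sq] at h1
    have : ‖y - z‖ ^ 2 = (k * ‖x - z‖) ^ 2 := by rw [h1]; ring
    exact (pow_left_inj₀ (norm_nonneg _) (by positivity) two_ne_zero).1 this
  unfold EuclideanGeometry.angle InnerProductGeometry.angle
  simp only [vsub_eq_sub]
  rw [h2, hn]
  have : -k * inner ℝ (x - z) (e - z) / (‖e - z‖ * (k * ‖x - z‖)) =
      -(inner ℝ (x - z) (e - z) / (‖x - z‖ * ‖e - z‖)) := by
    by_cases h0 : ‖x - z‖ * ‖e - z‖ = 0
    · have h0' : ‖e - z‖ * (k * ‖x - z‖) = 0 := by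
        have : ‖e - z‖ * (k * ‖x - z‖) = k * (‖x - z‖ * ‖e - z‖) := by ring
        rw [this, h0, mul_zero]
      rw [h0, h0', div_zero, div_zero, neg_zero]
    · have h3 : ‖x - z‖ ≠ 0 := left_ne_zero_of_mul h0
      have h4 : ‖e - z‖ ≠ 0 := right_ne_zero_of_mul h0
      field_simp
  rw [this, arccos_neg]
  ring

theorem affineIndependent_P : AffineIndependent ℝ P := by
  rw [affineIndependent_iff_of_fintype]
  intro w hw h
  rw [Finset.univ.weightedVSub_eq_linear_combination hw] at h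
  have h0 := congrArg (fun v : E3 => v 0) h
  have h1 := congrArg (fun v : E3 => v 1) h
  have h2 := congrArg (fun v : E3 => v 2) h
  simp [P, Fin.sum_univ_four] at h0 h1 h2
  rw [Fin.sum_univ_four] at hw
  intro i
  fin_cases i <;> simp <;> linarith

theorem faceAngle (a b c : Fin 4) (hab : b ≠ a) (hac : c ≠ a) (hbc : b < c) :
    ∠ (P b) (P a) (P c) = π / 3 := by
  unfold EuclideanGeometry.angle InnerProductGeometry.angle
  simp only [vsub_eq_sub]
  have hinner : inner ℝ (P b - P a) (P c - P a) = 4 := by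
    fin_cases a <;> fin_cases b <;> fin_cases c <;>
      first
      | exact absurd rfl hab
      | exact absurd rfl hac
      | exact absurd hbc (by decide)
      | (rw [inner3]; simp [P]; norm_num)
  have hnorm : ∀ b : Fin 4, b ≠ a → ‖P b - P a‖ ^ 2 = 8 := by
    intro b hab
    rw [← real_inner_self_eq_norm_sq]
    clear hinner hbc
    fin_cases a <;> fin_cases b <;>
      first
      | exact absurd rfl hab
      | (rw [inner3]; simp [P]; norm_num)
  have h8 : ∀ b : Fin 4, b ≠ a → ‖P b - P a‖ = √8 := by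
    intro b hb
    rw [← hnorm b hb, Real.sqrt_sq (norm_nonneg _)]
  rw [hinner, h8 b hab, h8 c hac, Real.mul_self_sqrt (by norm_num)]
  have : (4 : ℝ) / 8 = cos (π / 3) := by
    rw [cos_pi_div_three]; norm_num
  rw [this, arccos_cos (by positivity) (by linarith [pi_pos])]

theorem totalAngle_eq (a : Fin 4) : totalAngle P a = π := by
  unfold totalAngle
  have : ∀ b c : Fin 4, (if b < c ∧ b ≠ a ∧ c ≠ a then ∠ (P b) (P a) (P c) else 0) =
      if b < c ∧ b ≠ a ∧ c ≠ a then π / 3 else 0 := by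
    intro b c
    split_ifs with h
    · exact faceAngle a b c h.2.1 h.2.2 h.1
    · rfl
  simp only [this]
  fin_cases a <;> simp [Fin.sum_univ_four] <;> ring

theorem X_ne (i : Fin 8) : X i ≠ X (i + 1) := by
  intro h
  have h0 := congrArg (fun v : E3 => v 0) h
  have h2 := congrArg (fun v : E3 => v 2) h
  fin_cases i <;> simp [X] at h0 h2 <;> linarith

set_option maxHeartbeats 4000000 in
theorem inter (i j : Fin 8) (hij : i ≠ j) (p : E3) (h1 : p ∈ segment ℝ (X i) (X (i + 1)))
    (h2 : p ∈ segment ℝ (X j) (X (j + 1))) : (j = i + 1 ∧ p = X j) ∨ (i = j + 1 ∧ p = X i) := by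
  obtain ⟨t, ht0, ht1, ht⟩ := seg_coord h1
  obtain ⟨s, hs0, hs1, hs⟩ := seg_coord h2
  clear h1 h2
  have e0 := (ht 0).symm.trans (hs 0)
  have e1 := (ht 1).symm.trans (hs 1)
  have e2 := (ht 2).symm.trans (hs 2)
  have a0 := ht 0
  have a1 := ht 1
  have a2 := ht 2
  clear ht hs
  fin_cases i <;> fin_cases j <;>
    first
    | exact absurd rfl hij
    | (exfalso; simp [X] at e0 e1 e2; linarith)
    | (left
       refine ⟨rfl, ?_⟩
       simp [X] at e0 e1 e2 a0 a1 a2
       ext k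
       fin_cases k <;> simp [X] <;> linarith)
    | (right
       refine ⟨rfl, ?_⟩
       simp [X] at e0 e1 e2 a0 a1 a2
       ext k
       fin_cases k <;> simp [X] <;> linarith)

/-- the edge containing a node, and the position of the node on it -/
def ea : Fin 8 → Fin 4 := ![0, 1, 3, 1, 0, 0, 2, 1]

/-- the edge containing a node, and the position of the node on it -/
def eb : Fin 8 → Fin 4 := ![0, 2, 3, 2, 1, 3, 3, 2]

/-- the edge containing a node, and the position of the node on it -/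
noncomputable def es : Fin 8 → ℝ := ![0, 1 / 2, 0, 1 / 4, 2 / 3, 1 / 2, 1 / 3, 3 / 4]

theorem X_eq (i : Fin 8) : (1 - es i) • P (ea i) + es i • P (eb i) = X i := by
  fin_cases i <;> ext k <;> fin_cases k <;> simp [X, P, ea, eb, es] <;> (try norm_num)

theorem es_mem (i : Fin 8) : 0 ≤ es i ∧ es i ≤ 1 := by
  fin_cases i <;> simp [es] <;> (try norm_num)

theorem vertex_mem_face {a f : Fin 4} (h : a ≠ f) : P a ∈ face P f :=
  subset_convexHull _ _ ⟨a, h, rfl⟩

theorem X_mem_face {i : Fin 8} {f : Fin 4} (h1 : ea i ≠ f) (h2 : eb i ≠ f) : X i ∈ face P f := by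
  rw [← X_eq]
  exact (convex_convexHull ℝ _) (vertex_mem_face h1) (vertex_mem_face h2)
    (sub_nonneg.2 (es_mem i).2) (es_mem i).1 (by ring)

theorem sides_in_faces (i : Fin 8) : segment ℝ (X i) (X (i + 1)) ⊆ face P (F i) := by
  apply (convex_convexHull ℝ _).segment_subset
  · apply X_mem_face
    · revert i; decide
    · revert i; decide
  · apply X_mem_face
    · revert i; decide
    · revert i; decide

theorem edge_node {i : Fin 8} (k : ℝ) (hk : 0 < k) (h1 : ea (i + 1) ≠ eb (i + 1))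
    (h2 : ea (i + 1) ≠ F i) (h3 : ea (i + 1) ≠ F (i + 1)) (h4 : eb (i + 1) ≠ F i)
    (h5 : eb (i + 1) ≠ F (i + 1)) (h6 : F i ≠ F (i + 1)) (h7 : 0 < es (i + 1))
    (h8 : es (i + 1) < 1)
    (h9 : inner ℝ (X (i + 2) - X (i + 1)) (X (i + 2) - X (i + 1)) =
      k ^ 2 * inner ℝ (X i - X (i + 1)) (X i - X (i + 1)))
    (h10 : inner ℝ (P (ea (i + 1)) - X (i + 1)) (X (i + 2) - X (i + 1)) =
      -k * inner ℝ (X i - X (i + 1)) (P (ea (i + 1)) - X (i + 1)))
    (h11 : inner ℝ (P (eb (i + 1)) - X (i + 1)) (X (i + 2) - X (i + 1)) =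
      -k * inner ℝ (X i - X (i + 1)) (P (eb (i + 1)) - X (i + 1))) :
    EdgeNode P (X i) (F i) (X (i + 1)) (F (i + 1)) (X (i + 2)) :=
  ⟨ea (i + 1), eb (i + 1), h1, h2, h3, h4, h5, h6,
    ⟨1 - es (i + 1), es (i + 1), by linarith, h7, by ring, X_eq _⟩,
    (angle_sum hk h9 h10).le, (angle_sum hk h9 h11).le⟩

theorem nodes (i : Fin 8) : VertexNode P (X i) (F i) (X (i + 1)) (F (i + 1)) (X (i + 2)) ∨
    EdgeNode P (X i) (F i) (X (i + 1)) (F (i + 1)) (X (i + 2)) := by
  have hv : ∀ i : Fin 8, ∀ a : Fin 4, a ≠ F i → F i = F (i + 1) → X (i + 1) = P a →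
      VertexNode P (X i) (F i) (X (i + 1)) (F (i + 1)) (X (i + 2)) := by
    intro i a h1 h2 h3
    refine ⟨a, h1, h2 ▸ h1, h3, ?_, ?_⟩
    · unfold vertexAngle
      rw [if_pos h2]
      exact angle_le_pi _ _ _
    · unfold vertexAngle
      rw [if_pos h2, totalAngle_eq]
      linarith [angle_nonneg (X i) (P a) (X (i + 2))]
  fin_cases i
  · right
    refine edge_node (i := 0) 1 one_pos (by decide) (by decide) (by decide) (by decide)
      (by decide) (by decide) ?_ ?_ ?_ ?_ ?_
    · simp [es]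
    · simp [es]; norm_num
    all_goals rw [inner3, inner3]; simp [X, P, ea, eb]
  · left
    exact hv 1 3 (by decide) (by decide) (by ext k; fin_cases k <;> simp [X, P])
  · right
    refine edge_node (i := 2) (1 / 3) (by norm_num) (by decide) (by decide) (by decide) (by decide)
      (by decide) (by decide) ?_ ?_ ?_ ?_ ?_
    · simp [es]
    · simp [es]; norm_num
    all_goals rw [inner3, inner3]; simp [X, P, ea, eb]; (try norm_num)
  · right
    refine edge_node (i := 3) 2 (by norm_num) (by decide) (by decide) (by decide) (by decide)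
      (by decide) (by decide) ?_ ?_ ?_ ?_ ?_
    · simp [es]
    · simp [es]; norm_num
    all_goals rw [inner3, inner3]; simp [X, P, ea, eb]; (try norm_num)
  · right
    refine edge_node (i := 4) 1 (by norm_num) (by decide) (by decide) (by decide) (by decide)
      (by decide) (by decide) ?_ ?_ ?_ ?_ ?_
    · simp [es]
    · simp [es]; norm_num
    all_goals rw [inner3, inner3]; simp [X, P, ea, eb]; (try norm_num)
  · right
    refine edge_node (i := 5) (1 / 2) (by norm_num) (by decide) (by decide) (by decide) (by decide)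
      (by decide) (by decide) ?_ ?_ ?_ ?_ ?_
    · simp [es]
    · simp [es]; norm_num
    all_goals rw [inner3, inner3]; simp [X, P, ea, eb]; (try norm_num)
  · right
    refine edge_node (i := 6) 3 (by norm_num) (by decide) (by decide) (by decide) (by decide)
      (by decide) (by decide) ?_ ?_ ?_ ?_ ?_
    · simp [es]
    · simp [es]; norm_num
    all_goals rw [inner3, inner3]; simp [X, P, ea, eb]; (try norm_num)
  · left
    exact hv 7 0 (by decide) (by decide) (by ext k; fin_cases k <;> simp [X, P])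

theorem not_mem (p : E3) (h : (p 0 = 1 ∧ p 1 = -1 ∧ p 2 = -1) ∨ (p 0 = -1 ∧ p 1 = 1 ∧ p 2 = -1) ∨
    (p 0 = 1 / 2 ∧ p 1 = 1 / 2 ∧ p 2 = 1)) : p ∉ ⋃ i, segment ℝ (X i) (X (i + 1)) := by
  rw [mem_iUnion]
  rintro ⟨i, hi⟩
  obtain ⟨t, ht0, ht1, ht⟩ := seg_coord hi
  have e0 := ht 0
  have e1 := ht 1
  have e2 := ht 2
  clear ht hi
  rcases h with ⟨h0, h1, h2⟩ | ⟨h0, h1, h2⟩ | ⟨h0, h1, h2⟩ <;>
    rw [h0] at e0 <;> rw [h1] at e1 <;> rw [h2] at e2 <;> clear h0 h1 h2 <;>
    fin_cases i <;> simp [X] at e0 e1 e2 <;>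
    (try first | linarith | (rcases e2 with e2 | e2 <;> linarith))

theorem result : ∃ P : Fin 4 → E3, AffineIndependent ℝ P ∧ ∃ C : Set E3,
    IsSimpleClosedQuasigeodesic P C ∧ ∃ u v : Fin 4, u ≠ v ∧ (∀ i, P i ∈ C ↔ i = u ∨ i = v) ∧
    ¬ segment ℝ (P u) (P v) ⊆ C := by
  refine ⟨P, affineIndependent_P, ⋃ i, segment ℝ (X i) (X (i + 1)),
    ⟨5, X, F, rfl, X_ne, fun i j hij p h1 h2 => inter i j hij p h1 h2, sides_in_faces, nodes⟩,
    0, 3, by decide, ?_, ?_⟩
  · intro i
    constructor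
    · intro hi
      by_contra hcon
      push Not at hcon
      refine not_mem (P i) ?_ hi
      fin_cases i
      · exact absurd rfl hcon.1
      · left; simp [P]
      · right; left; simp [P]
      · exact absurd rfl hcon.2
    · rintro (rfl | rfl)
      · exact mem_iUnion.2 ⟨0, left_mem_segment ℝ _ _⟩
      · refine mem_iUnion.2 ⟨2, ?_⟩
        exact left_mem_segment ℝ _ _
  · intro hsub
    refine not_mem ((3 / 4 : ℝ) • P 0 + (1 / 4 : ℝ) • P 3) ?_ (hsub ?_)
    · right; right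
      simp [P]
      norm_num
    · exact ⟨3 / 4, 1 / 4, by norm_num, by norm_num, by norm_num, rfl⟩

end Pool.Agent.Results.MP_a30120_gt.NotEdgeLoop
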